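import Mathlib
import Pool.Prelude.Def_F_c31e40fa

/-!
# The Mandelbrot set near the tip `-2`: the dynamical estimates

`E z = |z - 2| + |z + 2|` is constant on the ellipses with foci `± 2`, and `E (z ^ 2 - 2) = E z ^ 2 / 2 - 4`.
-/

set_option autoImplicit false

open Filter Topology Metric Set N62a1eb23 Bornology ComplexConjugate

namespace Pool.Agent.X215.Tip

/-- The quadratic map. -/
def f (c : ℂ) : ℂ → ℂ := fun z => z ^ 2 + c

/-- The sum of the distances to `2` and `-2`. -/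
noncomputable def E (z : ℂ) : ℝ := ‖z - 2‖ + ‖z + 2‖

theorem four_le_E (z : ℂ) : 4 ≤ E z := by
  have h := norm_sub_le (z + 2) (z - 2)
  rw [show (z + 2) - (z - 2) = (4 : ℂ) by ring] at h
  simp only [Complex.norm_ofNat] at h
  unfold E
  linarith

theorem two_norm_le_E (z : ℂ) : 2 * ‖z‖ ≤ E z := by
  have h := norm_add_le (z - 2) (z + 2)
  rw [show (z - 2) + (z + 2) = 2 * z by ring, norm_mul, Complex.norm_ofNat] at h
  exact h

theorem E_le (z : ℂ) : E z ≤ 2 * ‖z‖ + 4 := by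
  have h1 := norm_sub_le z 2
  have h2 := norm_add_le z 2
  simp only [Complex.norm_ofNat] at h1 h2
  unfold E
  linarith

theorem E_sq_eq (z : ℂ) : E z ^ 2 = 2 * ‖z‖ ^ 2 + 8 + 2 * ‖z ^ 2 - 4‖ := by
  have h1 : ‖z ^ 2 - 4‖ = ‖z - 2‖ * ‖z + 2‖ := by
    rw [← norm_mul]
    congr 1
    ring
  have h2 : ‖z - 2‖ ^ 2 + ‖z + 2‖ ^ 2 = 2 * ‖z‖ ^ 2 + 8 := by
    rw [← Complex.normSq_eq_norm_sq, ← Complex.normSq_eq_norm_sq, ← Complex.normSq_eq_norm_sq]
    simp only [Complex.normSq_apply, Complex.sub_re, Complex.sub_im, Complex.add_re, Complex.add_im,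
      Complex.re_ofNat, Complex.im_ofNat]
    ring
  rw [h1]
  unfold E
  nlinarith

theorem E_cheb (z : ℂ) : E (z ^ 2 - 2) = E z ^ 2 / 2 - 4 := by
  rw [E_sq_eq]
  unfold E
  rw [show z ^ 2 - 2 - 2 = z ^ 2 - 4 by ring, show z ^ 2 - 2 + 2 = z ^ 2 by ring, norm_pow]
  ring

theorem E_lip (z w : ℂ) : |E (z + w) - E z| ≤ 2 * ‖w‖ := by
  have h1 := abs_norm_sub_norm_le (z + w - 2) (z - 2)
  have h2 := abs_norm_sub_norm_le (z + w + 2) (z + 2)
  rw [show z + w - 2 - (z - 2) = w by ring] at h1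
  rw [show z + w + 2 - (z + 2) = w by ring] at h2
  unfold E
  calc |‖z + w - 2‖ + ‖z + w + 2‖ - (‖z - 2‖ + ‖z + 2‖)|
      = |(‖z + w - 2‖ - ‖z - 2‖) + (‖z + w + 2‖ - ‖z + 2‖)| := by congr 1; ring
    _ ≤ |‖z + w - 2‖ - ‖z - 2‖| + |‖z + w + 2‖ - ‖z + 2‖| := abs_add_le _ _
    _ ≤ 2 * ‖w‖ := by linarith

/-- The exact recursion of `E` up to `2 |c + 2|`. -/
theorem E_step (c z : ℂ) : |E (f c z) - (E z ^ 2 / 2 - 4)| ≤ 2 * ‖c + 2‖ := by
  rw [← E_cheb]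
  have : f c z = (z ^ 2 - 2) + (c + 2) := by unfold f; ring
  rw [this]
  exact E_lip _ _

/-- The upper bound for the imaginary part on an ellipse. -/
theorem im_sq_le (z : ℂ) : z.im ^ 2 ≤ E z ^ 2 / 4 - 4 := by
  obtain ⟨T, hT⟩ : ∃ T, T = E z ^ 2 / 2 - 4 := ⟨_, rfl⟩
  have h4 := four_le_E z
  have hT4 : 4 ≤ T := by rw [hT]; nlinarith
  have h1 : ‖z ^ 2 - 4‖ = T - ‖z‖ ^ 2 := by
    have := E_sq_eq z
    rw [hT]
    linarith
  have h2 : ‖z ^ 2 - 4‖ ^ 2 = (‖z‖ ^ 2 - 4) ^ 2 + 16 * z.im ^ 2 := by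
    rw [← Complex.normSq_eq_norm_sq, ← Complex.normSq_eq_norm_sq]
    simp only [Complex.normSq_apply, Complex.sub_re, Complex.sub_im, pow_two, Complex.mul_re,
      Complex.mul_im, Complex.re_ofNat, Complex.im_ofNat]
    ring
  have h3 : z.im ^ 2 ≤ ‖z‖ ^ 2 := by
    rw [← Complex.normSq_eq_norm_sq, Complex.normSq_apply]
    nlinarith [sq_nonneg z.re]
  have h5 : 16 * z.im ^ 2 = (T - 4) * (T + 4 - 2 * ‖z‖ ^ 2) := by
    rw [h1] at h2
    nlinarith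
  have h6 : 16 * z.im ^ 2 ≤ (T - 4) * (T + 4 - 2 * z.im ^ 2) := by
    rw [h5]
    apply mul_le_mul_of_nonneg_left _ (by linarith)
    linarith
  have h7 : (T + 4) * (2 * z.im ^ 2) ≤ (T + 4) * (T - 4) := by nlinarith
  have h8 := le_of_mul_le_mul_left h7 (by linarith)
  have : E z ^ 2 / 4 - 4 = (T - 4) / 2 := by rw [hT]; ring
  rw [this]
  linarith

/-! ### Escape -/

theorem excess_step (c z : ℂ) :
    4 * (E z - 4 - 2 / 3 * ‖c + 2‖) ≤ E (f c z) - 4 - 2 / 3 * ‖c + 2‖ := by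
  have h1 := (abs_le.1 (E_step c z)).1
  have h2 := norm_nonneg (c + 2)
  nlinarith [sq_nonneg (E z - 4)]

theorem excess_iter (c z : ℂ) (h : 0 ≤ E z - 4 - 2 / 3 * ‖c + 2‖) (k : ℕ) :
    4 ^ k * (E z - 4 - 2 / 3 * ‖c + 2‖) ≤ E ((f c)^[k] z) - 4 - 2 / 3 * ‖c + 2‖ := by
  induction k with
  | zero => simp
  | succ k ih =>
    rw [Function.iterate_succ_apply']
    have h0 : 0 ≤ 4 ^ k * (E z - 4 - 2 / 3 * ‖c + 2‖) := by positivity
    refine le_trans ?_ (excess_step c _)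
    rw [pow_succ]
    linarith

theorem escape (c z : ℂ) (h : 4 + 2 / 3 * ‖c + 2‖ < E z) :
    Tendsto (fun k => (f c)^[k] z) atTop (cobounded ℂ) := by
  rw [← tendsto_norm_atTop_iff_cobounded]
  obtain ⟨κ, hκ⟩ : ∃ κ, κ = E z - 4 - 2 / 3 * ‖c + 2‖ := ⟨_, rfl⟩
  have hκ0 : 0 < κ := by rw [hκ]; linarith
  have h1 : Tendsto (fun k : ℕ => (4 : ℝ) ^ k * (κ / 2)) atTop atTop :=
    (tendsto_pow_atTop_atTop_of_one_lt (by norm_num)).atTop_mul_const (by linarith)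
  refine tendsto_atTop_mono (fun k => ?_) h1
  have h2 := excess_iter c z (by rw [← hκ]; exact hκ0.le) k
  rw [← hκ] at h2
  have h3 := E_le ((f c)^[k] z)
  have h4 := norm_nonneg (c + 2)
  linarith

/-- The filled Julia set lies in an ellipse with foci `± 2`. -/
theorem julia_ellipse (c z : ℂ) (h : ¬ Tendsto (fun k => (f c)^[k] z) atTop (cobounded ℂ)) :
    E z ≤ 4 + 2 / 3 * ‖c + 2‖ := by
  by_contra hcon
  push Not at hcon
  exact h (escape c z hcon)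

theorem mem_mandelbrot {c : ℂ} :
    c ∈ mandelbrotSet ↔ ¬ Tendsto (fun k => (f c)^[k] 0) atTop (cobounded ℂ) := Iff.rfl

theorem orbit_ellipse {c : ℂ} (hc : c ∈ mandelbrotSet) (n : ℕ) :
    E ((f c)^[n] 0) ≤ 4 + 2 / 3 * ‖c + 2‖ := by
  apply julia_ellipse
  intro h
  rw [mem_mandelbrot] at hc
  apply hc
  rw [← tendsto_add_atTop_iff_nat n]
  refine h.congr fun k => ?_
  rw [← Function.iterate_add_apply]

/-! ### The orbit near the fixed point -/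

/-- `f_c^{n+2}(0) - 2` for `c = -2 + w`. -/
noncomputable def ζ (w : ℂ) : ℕ → ℂ
  | 0 => w ^ 2 - 3 * w
  | n + 1 => 4 * ζ w n + ζ w n ^ 2 + w

theorem iter_eq (w : ℂ) (n : ℕ) : (f (-2 + w))^[n + 2] 0 = 2 + ζ w n := by
  induction n with
  | zero =>
    simp only [zero_add, Function.iterate_succ, Function.iterate_zero, Function.comp_apply, id_eq, f,
      ζ]
    ring
  | succ n ih =>
    rw [show n + 1 + 2 = (n + 2) + 1 by ring, Function.iterate_succ_apply', ih]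
    simp only [f, ζ]
    ring

theorem ζ_conj (w : ℂ) (n : ℕ) : ζ (conj w) n = conj (ζ w n) := by
  induction n with
  | zero => simp only [ζ, map_sub, map_pow, map_mul, map_ofNat]
  | succ n ih => simp only [ζ, ih, map_add, map_pow, map_mul, map_ofNat]

theorem ζ_zero (n : ℕ) : ζ 0 n = 0 := by
  induction n with
  | zero => simp [ζ]
  | succ n ih => simp [ζ, ih]

theorem ζ_diff (n : ℕ) : Differentiable ℂ (fun w => ζ w n) := by
  induction n with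
  | zero => simp only [ζ]; fun_prop
  | succ n ih => simp only [ζ]; fun_prop

theorem U_four {y : ℝ} (hy : 0 ≤ y) :
    12 * (y * (4 + y)) / (12 + y * (4 + y)) ≤ 4 * (12 * y / (12 + y)) := by
  rw [mul_div_assoc', div_le_div_iff₀ (by positivity) (by linarith)]
  nlinarith [mul_nonneg hy hy, mul_nonneg (mul_nonneg hy hy) hy]

theorem U_mono {x y : ℝ} (hx : 0 ≤ x) (hxy : x ≤ y) : 12 * x / (12 + x) ≤ 12 * y / (12 + y) := by
  rw [div_le_div_iff₀ (by positivity) (by linarith)]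
  nlinarith

theorem U_bound {w : ℂ} (hw : ‖w‖ ≤ 2 / 3) (n : ℕ) :
    12 * (‖ζ w n‖ + ‖w‖ / 3) / (12 + (‖ζ w n‖ + ‖w‖ / 3)) ≤ 4 ^ (n + 1) * ‖w‖ := by
  induction n with
  | zero =>
    have h0 := norm_nonneg w
    have h1 : ‖ζ w 0‖ + ‖w‖ / 3 ≤ 4 * ‖w‖ := by
      have : ‖ζ w 0‖ ≤ ‖w‖ ^ 2 + 3 * ‖w‖ := by
        simp only [ζ]
        refine (norm_sub_le _ _).trans ?_
        rw [norm_pow, norm_mul, Complex.norm_ofNat]
      nlinarith
    rw [div_le_iff₀ (by positivity)]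
    have h2 := norm_nonneg (ζ w 0)
    nlinarith [mul_nonneg h0 h2, mul_nonneg h0 h0]
  | succ n ih =>
    have h0 := norm_nonneg w
    have hz := norm_nonneg (ζ w n)
    obtain ⟨y, hy⟩ : ∃ y, y = ‖ζ w n‖ + ‖w‖ / 3 := ⟨_, rfl⟩
    rw [← hy] at ih
    have hy0 : 0 ≤ y := by rw [hy]; positivity
    have h1 : ‖ζ w (n + 1)‖ + ‖w‖ / 3 ≤ y * (4 + y) := by
      have : ‖ζ w (n + 1)‖ ≤ 4 * ‖ζ w n‖ + ‖ζ w n‖ ^ 2 + ‖w‖ := by
        simp only [ζ]
        refine (norm_add_le _ _).trans ?_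
        gcongr
        refine (norm_add_le _ _).trans ?_
        rw [norm_pow, norm_mul, Complex.norm_ofNat]
      rw [hy]
      nlinarith [mul_nonneg hz h0, mul_nonneg h0 h0]
    refine (U_mono (by positivity) h1).trans ((U_four hy0).trans ?_)
    rw [pow_succ]
    linarith

theorem ζ_le {w : ℂ} {n : ℕ} (h : 4 ^ (n + 1) * ‖w‖ ≤ 1) :
    ‖ζ w n‖ ≤ 12 / 11 * (4 ^ (n + 1) * ‖w‖) := by
  have h0 := norm_nonneg w
  have hw : ‖w‖ ≤ 2 / 3 := by
    have : (4 : ℝ) ≤ 4 ^ (n + 1) := by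
      rw [pow_succ]
      nlinarith [one_le_pow₀ (M₀ := ℝ) (a := 4) (by norm_num) (n := n)]
    nlinarith
  have h1 := U_bound hw n
  obtain ⟨y, hy⟩ : ∃ y, y = ‖ζ w n‖ + ‖w‖ / 3 := ⟨_, rfl⟩
  obtain ⟨q, hq⟩ : ∃ q, q = 4 ^ (n + 1) * ‖w‖ := ⟨_, rfl⟩
  have hz := norm_nonneg (ζ w n)
  have hy0 : 0 ≤ y := by rw [hy]; positivity
  have hq0 : 0 ≤ q := by rw [hq]; positivity
  rw [← hy, ← hq] at h1
  rw [← hq] at h ⊢
  rw [div_le_iff₀ (by positivity)] at h1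
  have h2 : y ≤ 12 / 11 * q := by nlinarith
  linarith

/-- The expansion of the iterates as functions of the parameter. -/
theorem expand {w w' : ℂ} {R : ℝ} (hw : ‖w‖ ≤ R) (hw' : ‖w'‖ ≤ R) (n : ℕ)
    (h : 4 ^ (n + 1) * R ≤ 1) :
    (4 ^ n * (2 - 4 ^ (n + 1) * R) + 1 / 2) * ‖w - w'‖ ≤ ‖ζ w n - ζ w' n‖ ∧
    ‖ζ w n - ζ w' n‖ ≤ (4 ^ n * (10 / 3 + 3 / 4 * (4 ^ (n + 1) * R)) - 1 / 3) * ‖w - w'‖ := by
  have hR : 0 ≤ R := (norm_nonneg w).trans hw
  induction n with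
  | zero =>
    have h1 : ζ w 0 - ζ w' 0 = (w - w') * (w + w' - 3) := by simp only [ζ]; ring
    have h2 : ‖w + w' - 3‖ ≤ 3 + 2 * R := by
      refine (norm_sub_le _ _).trans ?_
      have := norm_add_le w w'
      rw [Complex.norm_ofNat]
      linarith
    have h3 : 3 - 2 * R ≤ ‖w + w' - 3‖ := by
      have := norm_sub_norm_le (3 : ℂ) (w + w')
      rw [Complex.norm_ofNat, norm_sub_rev] at this
      have := norm_add_le w w'
      linarith
    rw [h1, norm_mul]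
    have h4 := norm_nonneg (w - w')
    constructor
    · rw [mul_comm]
      apply mul_le_mul_of_nonneg_left _ h4
      norm_num
      linarith
    · rw [mul_comm]
      apply mul_le_mul_of_nonneg_right _ h4
      norm_num
      linarith
  | succ n ih =>
    obtain ⟨A, hA⟩ : ∃ A : ℝ, A = 4 ^ n := ⟨_, rfl⟩
    have hA1 : 1 ≤ A := by rw [hA]; exact one_le_pow₀ (by norm_num)
    obtain ⟨Q, hQ⟩ : ∃ Q, Q = 4 ^ (n + 1) * R := ⟨_, rfl⟩
    have hQ0 : 0 ≤ Q := by rw [hQ]; positivity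
    have hQ' : 4 ^ (n + 1 + 1) * R = 4 * Q := by rw [hQ, pow_succ]; ring
    rw [hQ'] at h
    obtain ⟨ih1, ih2⟩ := ih (by rw [← hQ]; linarith)
    rw [← hA, ← hQ] at ih1 ih2
    rw [hQ', pow_succ, ← hA]
    have hb : ‖ζ w n‖ ≤ 12 / 11 * Q := by
      have hq : 4 ^ (n + 1) * ‖w‖ ≤ Q := by rw [hQ]; gcongr
      exact (ζ_le (by linarith)).trans (by linarith)
    have hb' : ‖ζ w' n‖ ≤ 12 / 11 * Q := by
      have hq : 4 ^ (n + 1) * ‖w'‖ ≤ Q := by rw [hQ]; gcongr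
      exact (ζ_le (by linarith)).trans (by linarith)
    have h1 : ζ w (n + 1) - ζ w' (n + 1) =
        (ζ w n - ζ w' n) * (4 + (ζ w n + ζ w' n)) + (w - w') := by simp only [ζ]; ring
    have hs := norm_add_le (ζ w n) (ζ w' n)
    have h2 : ‖4 + (ζ w n + ζ w' n)‖ ≤ 4 + 24 / 11 * Q := by
      refine (norm_add_le _ _).trans ?_
      rw [Complex.norm_ofNat]
      linarith
    have h3 : 4 - 24 / 11 * Q ≤ ‖4 + (ζ w n + ζ w' n)‖ := by
      have := norm_sub_norm_le (4 : ℂ) (-(ζ w n + ζ w' n))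
      rw [Complex.norm_ofNat, norm_neg, sub_neg_eq_add] at this
      linarith
    obtain ⟨D, hD⟩ : ∃ D, D = ‖ζ w n - ζ w' n‖ := ⟨_, rfl⟩
    obtain ⟨Δ, hΔ⟩ : ∃ Δ, Δ = ‖w - w'‖ := ⟨_, rfl⟩
    have hΔ0 : 0 ≤ Δ := by rw [hΔ]; exact norm_nonneg _
    have hD0 : 0 ≤ D := by rw [hD]; exact norm_nonneg _
    rw [← hD, ← hΔ] at ih1 ih2
    rw [h1, ← hΔ]
    constructor
    · have h5 : D * (4 - 24 / 11 * Q) - Δ ≤
          ‖(ζ w n - ζ w' n) * (4 + (ζ w n + ζ w' n)) + (w - w')‖ := by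
        have h6 := norm_sub_norm_le ((ζ w n - ζ w' n) * (4 + (ζ w n + ζ w' n))) (-(w - w'))
        rw [norm_mul, norm_neg, sub_neg_eq_add, ← hD, ← hΔ] at h6
        have h7 := mul_le_mul_of_nonneg_left h3 hD0
        linarith
      refine le_trans ?_ h5
      have h8 : (A * (2 - Q) + 1 / 2) * Δ * (4 - 24 / 11 * Q) ≤ D * (4 - 24 / 11 * Q) :=
        mul_le_mul_of_nonneg_right ih1 (by linarith)
      have h9 : (A * 4 * (2 - 4 * Q) + 1 / 2) * Δ ≤
          (A * (2 - Q) + 1 / 2) * Δ * (4 - 24 / 11 * Q) - Δ := by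
        have : (A * 4 * (2 - 4 * Q) + 1 / 2) ≤ (A * (2 - Q) + 1 / 2) * (4 - 24 / 11 * Q) - 1 := by
          nlinarith [mul_nonneg (mul_nonneg (by linarith : (0 : ℝ) ≤ A) hQ0) hQ0,
            mul_nonneg (by linarith : (0 : ℝ) ≤ A - 1) hQ0]
        nlinarith
      linarith
    · have h5 : ‖(ζ w n - ζ w' n) * (4 + (ζ w n + ζ w' n)) + (w - w')‖ ≤
          D * (4 + 24 / 11 * Q) + Δ := by
        refine (norm_add_le _ _).trans ?_
        rw [norm_mul, ← hD, ← hΔ]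
        have h7 := mul_le_mul_of_nonneg_left h2 hD0
        linarith
      refine h5.trans ?_
      have h8 : D * (4 + 24 / 11 * Q) ≤
          (A * (10 / 3 + 3 / 4 * Q) - 1 / 3) * Δ * (4 + 24 / 11 * Q) :=
        mul_le_mul_of_nonneg_right ih2 (by linarith)
      have h9 : (A * (10 / 3 + 3 / 4 * Q) - 1 / 3) * Δ * (4 + 24 / 11 * Q) + Δ ≤
          (A * 4 * (10 / 3 + 3 / 4 * (4 * Q)) - 1 / 3) * Δ := by
        have : (A * (10 / 3 + 3 / 4 * Q) - 1 / 3) * (4 + 24 / 11 * Q) + 1 ≤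
            (A * 4 * (10 / 3 + 3 / 4 * (4 * Q)) - 1 / 3) := by
          have hAQ : 0 ≤ A * Q := by positivity
          have hAQQ : A * Q * Q ≤ A * Q * (1 / 4) := mul_le_mul_of_nonneg_left (by linarith) hAQ
          nlinarith
        nlinarith
      linarith

end Pool.Agent.X215.Tip
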