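import Mathlib
import Pool.Agent.X215.Tip.Basic
import Pool.Agent.W677.MC8

/-!
# The exterior map of the Mandelbrot set near the tip `-2`
-/

set_option autoImplicit false

open Filter Topology Metric Set N62a1eb23 Bornology ComplexConjugate

namespace Pool.Agent.X215.Tip

open Pool.Agent.H713R2 Pool.Agent.H712R2 Pool.Agent.W677.MC

theorem green_bounds {ψ : ℂ → ℂ} (hψ : IsExteriorMap (multibrotSet 2) ψ) {z : ℂ} (hz : 1 < ‖z‖) :
    ∃ κ : ℝ, 0 < κ ∧ ∀ n : ℕ, κ * ‖z‖ ^ (2 ^ n) ≤ ‖(f (ψ z))^[n + 1] 0‖ ∧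
      ‖(f (ψ z))^[n + 1] 0‖ ≤ 2 * ‖z‖ ^ (2 ^ n) := by
  obtain ⟨β, hβ⟩ := exists_beta (d := 2) le_rfl
  obtain ⟨hx, hx0⟩ := inv_mem_ball hz
  refine ⟨Real.exp (-(2 * Real.log 2 * ‖z⁻¹‖ / (1 - ‖z⁻¹‖))), Real.exp_pos _, fun n => ⟨?_, ?_⟩⟩
  · have h3 := Pool.Agent.W677.MB.BB_lower (d := 2) le_rfl hβ n hx
    rw [BB_eq le_rfl β n z⁻¹ hx0, inv_inv, ← exteriorMap_unique hβ hψ hz, norm_mul, norm_pow,
      norm_inv] at h3
    have h4 : (0 : ℝ) < ‖z‖ ^ (2 ^ n) := by positivity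
    have h5 := mul_le_mul_of_nonneg_right h3 h4.le
    rw [norm_inv]
    refine h5.trans (le_of_eq ?_)
    have h6 : ‖z‖⁻¹ ^ 2 ^ n * ‖z‖ ^ 2 ^ n = 1 := by
      rw [← mul_pow, inv_mul_cancel₀ (by positivity), one_pow]
    calc ‖z‖⁻¹ ^ 2 ^ n * ‖P 2 (n + 1) (ψ z)‖ * ‖z‖ ^ 2 ^ n
        = (‖z‖⁻¹ ^ 2 ^ n * ‖z‖ ^ 2 ^ n) * ‖P 2 (n + 1) (ψ z)‖ := by ring
      _ = ‖(f (ψ z))^[n + 1] 0‖ := by rw [h6, one_mul]; rfl
  · exact P_le_two (d := 2) le_rfl hψ hz n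

/-- `2 (X + 1 / X)`. -/
noncomputable def J (X : ℝ) : ℝ := 2 * (X + X⁻¹)

theorem J_sq {X : ℝ} (hX : X ≠ 0) : J (X ^ 2) = J X ^ 2 / 2 - 4 := by
  unfold J
  field_simp
  ring

theorem four_le_J {X : ℝ} (hX : 0 < X) : 4 ≤ J X := by
  unfold J
  have h1 : X + X⁻¹ - 2 = (X - 1) ^ 2 / X := by
    field_simp
    ring
  have h2 : 0 ≤ (X - 1) ^ 2 / X := by positivity
  linarith

theorem J_le {X : ℝ} (hX : 1 ≤ X) : J X ≤ 4 * X := by
  unfold J
  have : X⁻¹ ≤ 1 := inv_le_one_of_one_le₀ hX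
  linarith

theorem two_mul_le_J {X : ℝ} (hX : 0 < X) : 2 * X ≤ J X := by
  unfold J
  have : 0 < X⁻¹ := inv_pos.2 hX
  linarith

theorem J_mono {X Y : ℝ} (hX : 1 ≤ X) (h : X ≤ Y) : J X ≤ J Y := by
  have h0 : 0 < X := by linarith
  have h1 : 0 < Y := by linarith
  have h2 : J Y - J X = 2 * ((Y - X) * (X * Y - 1) / (X * Y)) := by
    unfold J
    field_simp
    ring
  have h3 : 0 ≤ 2 * ((Y - X) * (X * Y - 1) / (X * Y)) := by
    have : 0 ≤ X * Y - 1 := by nlinarith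
    have : 0 ≤ Y - X := by linarith
    positivity
  linarith

theorem exists_J {T : ℝ} (hT : 4 ≤ T) : ∃ X : ℝ, 1 ≤ X ∧ J X = T := by
  obtain ⟨s, hs⟩ : ∃ s, s = √(T ^ 2 - 16) := ⟨_, rfl⟩
  have hs2 : s ^ 2 = T ^ 2 - 16 := by rw [hs, Real.sq_sqrt (by nlinarith)]
  have hs0 : 0 ≤ s := by rw [hs]; positivity
  refine ⟨(T + s) / 4, by linarith, ?_⟩
  have h1 : ((T + s) / 4)⁻¹ = (T - s) / 4 := by
    apply inv_eq_of_mul_eq_one_right
    nlinarith
  unfold J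
  rw [h1]
  ring

theorem le_of_pow {X Y κ C : ℝ} (hX : 0 < X) (hY : 0 < Y) (hκ : 0 < κ) (hC : 0 < C)
    (h : ∀ j : ℕ, κ * Y ^ (2 ^ j) ≤ C * X ^ (2 ^ j)) : Y ≤ X := by
  by_contra hcon
  push Not at hcon
  have h1 : X / Y < 1 := by rwa [div_lt_one hY]
  have h2 : Tendsto (fun j : ℕ => (X / Y) ^ (2 ^ j)) atTop (𝓝 0) :=
    (tendsto_pow_atTop_nhds_zero_of_lt_one (by positivity) h1).comp
      (tendsto_pow_atTop_atTop_of_one_lt (by norm_num : 1 < 2))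
  have h3 : ∀ j : ℕ, κ / C ≤ (X / Y) ^ (2 ^ j) := by
    intro j
    rw [div_pow, div_le_div_iff₀ hC (by positivity)]
    linarith [h j]
  have h4 := ge_of_tendsto' h2 h3
  have : 0 < κ / C := by positivity
  linarith

/-- **Comparison of the exterior map of the Mandelbrot set with that of the segment `[-2, 2]`.** -/
theorem compare {ψ : ℂ → ℂ} (hψ : IsExteriorMap (multibrotSet 2) ψ) {z : ℂ} (hz : 1 < ‖z‖) (n : ℕ) :
    |E ((f (ψ z))^[n + 1] 0) - J (‖z‖ ^ (2 ^ n))| ≤ 2 / 3 * ‖ψ z + 2‖ := by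
  obtain ⟨κ, hκ, hgr⟩ := green_bounds hψ hz
  obtain ⟨c, hc⟩ : ∃ c, c = ψ z := ⟨_, rfl⟩
  rw [← hc] at hgr ⊢
  obtain ⟨a, ha⟩ : ∃ a, a = 2 / 3 * ‖c + 2‖ := ⟨_, rfl⟩
  have ha0 : 0 ≤ a := by rw [ha]; positivity
  obtain ⟨Λ, hΛ⟩ : ∃ Λ, Λ = ‖z‖ ^ (2 ^ n) := ⟨_, rfl⟩
  have hΛ1 : 1 ≤ Λ := by rw [hΛ]; exact one_le_pow₀ hz.le
  rw [← ha, ← hΛ]
  obtain ⟨e, he⟩ : ∃ e : ℕ → ℝ, e = fun j => E ((f c)^[n + 1 + j] 0) := ⟨_, rfl⟩
  have hej : ∀ j, e j = E ((f c)^[n + 1 + j] 0) := fun j => by rw [he]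
  have he4 : ∀ j, 4 ≤ e j := fun j => by rw [hej]; exact four_le_E _
  have hstep : ∀ j, |e (j + 1) - (e j ^ 2 / 2 - 4)| ≤ 3 * a := by
    intro j
    rw [hej, hej, ← add_assoc, Function.iterate_succ_apply', ha]
    refine (E_step c _).trans (le_of_eq (by ring))
  have hpow : ∀ j, ‖z‖ ^ (2 ^ (n + j)) = Λ ^ (2 ^ j) := by
    intro j
    rw [hΛ, ← pow_mul, pow_add]
  have hup : ∀ j, e j ≤ 8 * Λ ^ (2 ^ j) := by
    intro j
    have h1 := (hgr (n + j)).2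
    rw [hpow] at h1
    have h2 := E_le ((f c)^[n + 1 + j] 0)
    rw [← hej, show n + 1 + j = n + j + 1 by ring] at h2
    have h3 : 1 ≤ Λ ^ (2 ^ j) := one_le_pow₀ hΛ1
    linarith
  have hlow : ∀ j, κ * Λ ^ (2 ^ j) ≤ e j / 2 := by
    intro j
    have h1 := (hgr (n + j)).1
    rw [hpow] at h1
    have h2 := two_norm_le_E ((f c)^[n + 1 + j] 0)
    rw [← hej, show n + 1 + j = n + j + 1 by ring] at h2
    linarith
  have he0 : E ((f c)^[n + 1] 0) = e 0 := by rw [hej, add_zero]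
  rw [he0, abs_le]
  constructor
  · obtain ⟨X, hX1, hX⟩ := exists_J (T := e 0 + a) (by linarith [he4 0])
    have hind : ∀ j, e j + a ≤ J (X ^ (2 ^ j)) := by
      intro j
      induction j with
      | zero => rw [pow_zero, pow_one, hX]
      | succ j ih =>
        have h1 := (abs_le.1 (hstep j)).2
        have h2 := he4 j
        rw [pow_succ, pow_mul, J_sq (by positivity)]
        have h3 : (e j + a) ^ 2 ≤ J (X ^ 2 ^ j) ^ 2 := pow_le_pow_left₀ (by linarith) ih 2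
        nlinarith
    have hle : Λ ≤ X := by
      apply le_of_pow (κ := κ) (C := 2) (by linarith) (by linarith) hκ (by norm_num)
      intro j
      have h1 := hind j
      have h2 := J_le (X := X ^ (2 ^ j)) (one_le_pow₀ hX1)
      have h3 := hlow j
      linarith
    have := J_mono hΛ1 hle
    linarith
  · rcases le_or_gt (e 0 - a) 4 with h | h
    · have := four_le_J (X := Λ) (by linarith)
      linarith
    · obtain ⟨X, hX1, hX⟩ := exists_J (T := e 0 - a) h.le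
      have hind : ∀ j, J (X ^ (2 ^ j)) ≤ e j - a := by
        intro j
        induction j with
        | zero => rw [pow_zero, pow_one, hX]
        | succ j ih =>
          have h1 := (abs_le.1 (hstep j)).1
          have h2 := he4 j
          have h4 := four_le_J (X := X ^ 2 ^ j) (by positivity)
          rw [pow_succ, pow_mul, J_sq (by positivity)]
          have h3 : J (X ^ 2 ^ j) ^ 2 ≤ (e j - a) ^ 2 := pow_le_pow_left₀ (by linarith) ih 2
          nlinarith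
      have hle : X ≤ Λ := by
        apply le_of_pow (κ := 2) (C := 8) (by linarith) (by linarith) (by norm_num) (by norm_num)
        intro j
        have h1 := hind j
        have h2 := two_mul_le_J (X := X ^ (2 ^ j)) (by positivity)
        have h3 := hup j
        linarith
      have := J_mono hX1 hle
      linarith

end Pool.Agent.X215.Tip
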