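import Mathlib
import Pool.Agent.X215.Tip.Ext

/-!
# The asymptotics of the exterior map of the Mandelbrot set at the tip `-2`
-/

set_option autoImplicit false

open Filter Topology Metric Set N62a1eb23 Bornology ComplexConjugate

namespace Pool.Agent.X215.Tip

open Pool.Agent.H713R2 Pool.Agent.H712R2 Pool.Agent.W677.MC

/-- The orbit near the fixed point to first order. -/
theorem linear {w : ℂ} (n : ℕ) (h : 4 ^ (n + 1) * ‖w‖ ≤ 1) :
    ‖ζ w n + ((8 / 3 * 4 ^ n + 1 / 3 : ℝ) : ℂ) * w‖ ≤ 3 * 16 ^ n * ‖w‖ ^ 2 := by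
  induction n with
  | zero =>
    have h1 : ζ w 0 + ((8 / 3 * 4 ^ 0 + 1 / 3 : ℝ) : ℂ) * w = w ^ 2 := by
      simp only [ζ]
      push_cast
      ring
    rw [h1, norm_pow]
    nlinarith [sq_nonneg ‖w‖]
  | succ n ih =>
    have h0 := norm_nonneg w
    have hlt : 4 ^ (n + 1) * ‖w‖ ≤ 1 := by
      rw [pow_succ] at h
      have : 0 ≤ (4 : ℝ) ^ (n + 1) * ‖w‖ := by positivity
      linarith
    have h1 := ih hlt
    have h2 := ζ_le hlt
    have h3 : ζ w (n + 1) + ((8 / 3 * 4 ^ (n + 1) + 1 / 3 : ℝ) : ℂ) * w =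
        4 * (ζ w n + ((8 / 3 * 4 ^ n + 1 / 3 : ℝ) : ℂ) * w) + ζ w n ^ 2 := by
      simp only [ζ]
      push_cast
      ring
    rw [h3]
    refine (norm_add_le _ _).trans ?_
    rw [norm_mul, Complex.norm_ofNat, norm_pow]
    have h4 : ‖ζ w n‖ ^ 2 ≤ (12 / 11 * (4 ^ (n + 1) * ‖w‖)) ^ 2 :=
      pow_le_pow_left₀ (norm_nonneg _) h2 2
    have h5 : (12 / 11 * ((4 : ℝ) ^ (n + 1) * ‖w‖)) ^ 2 = 2304 / 121 * (16 ^ n * ‖w‖ ^ 2) := by
      have e1 : (4 : ℝ) ^ (n + 1) = 4 * 4 ^ n := by ring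
      have e2 : (16 : ℝ) ^ n = (4 ^ n) ^ 2 := by
        rw [← pow_mul, mul_comm n 2, pow_mul]
        norm_num
      rw [e1, e2]
      ring
    rw [h5] at h4
    rw [pow_succ (16 : ℝ) n]
    have h6 : 0 ≤ (16 : ℝ) ^ n * ‖w‖ ^ 2 := by positivity
    nlinarith

theorem J_exp (L : ℝ) : J (Real.exp L) = 4 * Real.cosh L := by
  rw [J, ← Real.exp_neg, Real.cosh_eq]
  ring

theorem one_add_le_cosh (x : ℝ) : 1 + x ^ 2 / 2 ≤ Real.cosh x := by
  have h1 : Real.cosh x = 1 + 2 * Real.sinh (x / 2) ^ 2 := by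
    have := Real.cosh_two_mul (x / 2)
    rw [mul_div_cancel₀ _ (by norm_num : (2 : ℝ) ≠ 0)] at this
    have h2 := Real.cosh_sq (x / 2)
    rw [this, h2]
    ring
  have h2 : (x / 2) ^ 2 ≤ Real.sinh (x / 2) ^ 2 := by
    rw [sq_le_sq]
    rw [Real.abs_sinh]
    exact Real.self_le_sinh_iff.2 (abs_nonneg _)
  rw [h1]
  nlinarith

theorem pow_exp_log {z : ℂ} (hz : 1 < ‖z‖) (n : ℕ) :
    ‖z‖ ^ (2 ^ n) = Real.exp (2 ^ n * Real.log ‖z‖) := by
  rw [← Real.exp_log (show (0 : ℝ) < ‖z‖ by linarith)]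
  rw [Real.log_exp, ← Real.exp_nat_mul]
  push_cast
  rfl

/-- The upper bound for the potential in all directions. -/
theorem pot_le {ψ : ℂ → ℂ} (hψ : IsExteriorMap (multibrotSet 2) ψ) {z : ℂ} (hz : 1 < ‖z‖) (n : ℕ)
    (h : 4 ^ (n + 1) * ‖ψ z + 2‖ ≤ 1) :
    Real.log ‖z‖ ^ 2 ≤ 2 / 3 * ‖ψ z + 2‖ *
      (1 + 1 / 4 ^ (n + 1) + 9 / 8 * (4 ^ n * ‖ψ z + 2‖)) := by
  obtain ⟨w, hw⟩ : ∃ w, w = ψ z + 2 := ⟨_, rfl⟩
  have hψw : ψ z = -2 + w := by rw [hw]; ring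
  have h1 := (abs_le.1 (compare hψ hz (n + 1))).1
  rw [← hw] at h h1 ⊢
  rw [hψw, show n + 1 + 1 = n + 2 by ring, iter_eq, pow_exp_log hz, J_exp] at h1
  have h2 := one_add_le_cosh (2 ^ (n + 1) * Real.log ‖z‖)
  have h3 : E (2 + ζ w n) ≤ 4 + 2 * ‖ζ w n‖ := by
    unfold E
    rw [show 2 + ζ w n - 2 = ζ w n by ring, show 2 + ζ w n + 2 = 4 + ζ w n by ring]
    have := norm_add_le (4 : ℂ) (ζ w n)
    rw [Complex.norm_ofNat] at this
    linarith
  have h4 := linear n h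
  have h5 : ‖ζ w n‖ ≤ 3 * 16 ^ n * ‖w‖ ^ 2 + (8 / 3 * 4 ^ n + 1 / 3) * ‖w‖ := by
    have h6 := norm_sub_le (ζ w n + ((8 / 3 * 4 ^ n + 1 / 3 : ℝ) : ℂ) * w)
      (((8 / 3 * 4 ^ n + 1 / 3 : ℝ) : ℂ) * w)
    rw [add_sub_cancel_right, norm_mul, Complex.norm_real, Real.norm_eq_abs,
      abs_of_pos (by positivity)] at h6
    linarith
  obtain ⟨A, hA⟩ : ∃ A : ℝ, A = 4 ^ n := ⟨_, rfl⟩
  have hA16 : (16 : ℝ) ^ n = A ^ 2 := by
    rw [hA, ← pow_mul, mul_comm n 2, pow_mul]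
    norm_num
  have hA1 : 0 < A := by rw [hA]; positivity
  have h7 : ((2 : ℝ) ^ (n + 1) * Real.log ‖z‖) ^ 2 = 4 * A * Real.log ‖z‖ ^ 2 := by
    rw [mul_pow, ← pow_mul, mul_comm (n + 1) 2, pow_mul, show (2 : ℝ) ^ 2 = 4 by norm_num,
      pow_succ (4 : ℝ) n, ← hA]
    ring
  rw [h7] at h2
  rw [hA16, ← hA] at h5
  rw [pow_succ (4 : ℝ) n, ← hA]
  obtain ⟨L, hL⟩ : ∃ L, L = Real.log ‖z‖ ^ 2 := ⟨_, rfl⟩
  obtain ⟨W, hW⟩ : ∃ W, W = ‖w‖ := ⟨_, rfl⟩
  rw [← hL] at h2 ⊢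
  rw [← hW] at h1 h5 ⊢
  have h8 : 8 * A * L ≤ 2 * (3 * A ^ 2 * W ^ 2 + (8 / 3 * A + 1 / 3) * W) + 2 / 3 * W := by
    linarith
  have h9 : 2 / 3 * W * (1 + 1 / (A * 4) + 9 / 8 * (A * W)) =
      (2 * (3 * A ^ 2 * W ^ 2 + (8 / 3 * A + 1 / 3) * W) + 2 / 3 * W) / (8 * A) := by
    field_simp
    ring
  rw [h9, le_div_iff₀ (by positivity)]
  linarith

/-- The lower bound for the potential on the real axis. -/
theorem pot_ge {ψ : ℂ → ℂ} (hψ : IsExteriorMap (multibrotSet 2) ψ) {z : ℂ} (hz : 1 < ‖z‖) {t : ℝ}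
    (ht : 0 < t) (h : ψ z = ((-2 - t : ℝ) : ℂ)) :
    t * (t + 8 / 3) ≤ (‖z‖ - ‖z‖⁻¹) ^ 2 := by
  have h1 := (abs_le.1 (compare hψ hz 1)).2
  have hw : ψ z = -2 + ((-t : ℝ) : ℂ) := by rw [h]; push_cast; ring
  have h2 : ‖ψ z + 2‖ = t := by
    rw [hw, show (-2 : ℂ) + ((-t : ℝ) : ℂ) + 2 = ((-t : ℝ) : ℂ) by ring, Complex.norm_real,
      Real.norm_eq_abs, abs_neg, abs_of_pos ht]
  rw [h2, hw, show 1 + 1 = 0 + 2 by norm_num, iter_eq] at h1
  have h3 : E (2 + ζ ((-t : ℝ) : ℂ) 0) = 4 + 2 * (t ^ 2 + 3 * t) := by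
    unfold E
    simp only [ζ]
    rw [show (2 : ℂ) + (((-t : ℝ) : ℂ) ^ 2 - 3 * ((-t : ℝ) : ℂ)) - 2 =
      ((t ^ 2 + 3 * t : ℝ) : ℂ) by push_cast; ring,
      show (2 : ℂ) + (((-t : ℝ) : ℂ) ^ 2 - 3 * ((-t : ℝ) : ℂ)) + 2 =
      ((4 + (t ^ 2 + 3 * t) : ℝ) : ℂ) by push_cast; ring, Complex.norm_real, Complex.norm_real,
      Real.norm_eq_abs, Real.norm_eq_abs, abs_of_pos (by positivity), abs_of_pos (by positivity)]
    ring
  rw [h3, pow_one] at h1
  have hz0 : (0 : ℝ) < ‖z‖ := by linarith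
  have h4 : J (‖z‖ ^ 2) = 2 * (‖z‖ - ‖z‖⁻¹) ^ 2 + 4 := by
    unfold J
    field_simp
    ring
  rw [h4] at h1
  linarith

/-! ### The negative real axis -/

theorem conj_mem {c : ℂ} : conj c ∈ multibrotSet 2 ↔ c ∈ multibrotSet 2 := by
  have key : ∀ (c : ℂ) (n : ℕ), (f (conj c))^[n] 0 = conj ((f c)^[n] 0) := by
    intro c n
    induction n with
    | zero => simp
    | succ n ih =>
      rw [Function.iterate_succ_apply', Function.iterate_succ_apply', ih]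
      simp only [f, map_add, map_pow]
  rw [mem_mandelbrot, mem_mandelbrot, not_iff_not, ← tendsto_norm_atTop_iff_cobounded,
    ← tendsto_norm_atTop_iff_cobounded]
  simp only [key, Complex.norm_conj]

/-- The exterior map commutes with the conjugation (as in `CuspAsymptotics` of helper220). -/
theorem exterior_conj {ψ : ℂ → ℂ} (hψ : IsExteriorMap (multibrotSet 2) ψ) :
    IsExteriorMap (multibrotSet 2) (conj ∘ ψ ∘ conj) := by
  have hext : IsOpen {z : ℂ | 1 < ‖z‖} := isOpen_lt continuous_const continuous_norm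
  have hmem : ∀ z : ℂ, 1 < ‖z‖ → conj z ∈ {z : ℂ | 1 < ‖z‖} := by
    intro z hz
    show 1 < ‖conj z‖
    rwa [Complex.norm_conj]
  refine ⟨?_, ?_, ?_, ?_⟩
  · intro z hz
    have h1 := (hψ.diff.differentiableAt (hext.mem_nhds (hmem z hz))).star_star
    rw [← starRingEnd_apply, Complex.conj_conj] at h1
    exact DifferentiableAt.differentiableWithinAt h1
  · intro z hz w hw h
    have h1 := hψ.inj (hmem z hz) (hmem w hw) (star_injective h)
    exact star_injective h1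
  · ext c
    constructor
    · rintro ⟨z, hz, rfl⟩
      have h1 : ψ (conj z) ∈ (multibrotSet 2)ᶜ := by
        rw [← hψ.image]
        exact ⟨_, hmem z hz, rfl⟩
      exact fun h => h1 (conj_mem.1 h)
    · intro hc
      have h1 : conj c ∈ (multibrotSet 2)ᶜ := fun h => hc (conj_mem.1 h)
      rw [← hψ.image] at h1
      obtain ⟨z, hz, h2⟩ := h1
      refine ⟨conj z, hmem z hz, ?_⟩
      simp only [Function.comp_apply, Complex.conj_conj, h2]
  · have h1 : Tendsto (fun z : ℂ => conj z) (cobounded ℂ) (cobounded ℂ) := by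
      rw [← tendsto_norm_atTop_iff_cobounded]
      simp only [Complex.norm_conj]
      exact tendsto_norm_cobounded_atTop
    have h2 := (hψ.infinity.comp h1)
    have h3 := (Complex.continuous_conj.tendsto 1).comp h2
    rw [map_one] at h3
    refine h3.congr fun z => ?_
    simp only [Function.comp_apply, map_div₀, Complex.conj_conj]

theorem norm_neg_real {r : ℝ} (hr : 1 < r) : ‖(-(r : ℂ))‖ = r := by
  rw [norm_neg, Complex.norm_real, Real.norm_eq_abs, abs_of_pos (by linarith)]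

theorem psi_real {ψ : ℂ → ℂ} (hψ : IsExteriorMap (multibrotSet 2) ψ) {r : ℝ} (hr : 1 < r) :
    ψ (-r) = ((ψ (-r)).re : ℂ) := by
  obtain ⟨β, hβ⟩ := exists_beta (d := 2) le_rfl
  have hrn : 1 < ‖(-(r : ℂ))‖ := by rwa [norm_neg_real hr]
  have h1 := exteriorMap_unique hβ hψ hrn
  have h2 := exteriorMap_unique hβ (exterior_conj hψ) hrn
  rw [← h1] at h2
  simp only [Function.comp_apply, map_neg, Complex.conj_ofReal] at h2
  exact (Complex.conj_eq_iff_re.1 h2).symm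

theorem two_mem : (-2 : ℂ) ∈ multibrotSet 2 := by
  have h0 : (-2 : ℂ) = -2 + 0 := by ring
  rw [mem_mandelbrot, h0]
  intro hT
  have h1 : Tendsto (fun k : ℕ => (f (-2 + 0))^[k + 2] 0) atTop (cobounded ℂ) :=
    hT.comp (tendsto_add_atTop_nat 2)
  have key : ∀ k : ℕ, (f (-2 + 0))^[k + 2] 0 = 2 := by
    intro k
    rw [iter_eq, ζ_zero, add_zero]
  simp only [key] at h1
  have h5 := tendsto_norm_cobounded_atTop.comp h1
  have h6 := h5.eventually (eventually_gt_atTop (‖(2 : ℂ)‖))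
  obtain ⟨k, hk⟩ := h6.exists
  exact lt_irrefl _ hk

theorem psi_neg {ψ : ℂ → ℂ} (hψ : IsExteriorMap (multibrotSet 2) ψ) {r : ℝ} (hr : 1 < r) :
    (ψ (-r)).re < -2 := by
  have hn : ∀ t : ℝ, 1 < t → 1 < ‖(-(t : ℂ))‖ := by
    intro t ht
    rwa [norm_neg_real ht]
  have hcont : ContinuousOn (fun t : ℝ => (ψ (-t)).re) (Ioi 1) := by
    apply Complex.continuous_re.comp_continuousOn
    apply hψ.diff.continuousOn.comp (Complex.continuous_ofReal.neg.continuousOn)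
    intro t ht
    exact hn t ht
  have hne : ∀ t : ℝ, 1 < t → (ψ (-t)).re ≠ -2 := by
    intro t ht h0
    have h1 : ψ (-t) ∈ (multibrotSet 2)ᶜ := by
      rw [← hψ.image]
      exact ⟨_, hn t ht, rfl⟩
    apply h1
    rw [psi_real hψ ht, h0]
    exact_mod_cast two_mem
  obtain ⟨R, hR1, hR2⟩ : ∃ R : ℝ, 1 < R ∧ (ψ (-R)).re < -2 := by
    have h1 : Tendsto (fun t : ℝ => (-(t : ℂ))) atTop (cobounded ℂ) := by
      rw [← tendsto_norm_atTop_iff_cobounded]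
      simp only [norm_neg, Complex.norm_real]
      exact tendsto_norm_atTop_atTop
    have h2 := hψ.infinity.comp h1
    have h3 := (Complex.continuous_re.tendsto 1).comp h2
    have h4 := h3.eventually (lt_mem_nhds (show (1 / 2 : ℝ) < (1 : ℂ).re by norm_num))
    obtain ⟨R, h5, h6⟩ := (h4.and (eventually_gt_atTop 5)).exists
    refine ⟨R, by linarith, ?_⟩
    simp only [Function.comp_apply] at h5
    rw [psi_real hψ (by linarith), ← Complex.ofReal_neg, ← Complex.ofReal_div,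
      Complex.ofReal_re] at h5
    rw [div_neg, ← neg_div, lt_div_iff₀ (by linarith)] at h5
    rw [Complex.ofReal_neg] at h5
    linarith
  by_contra hcon
  push Not at hcon
  obtain ⟨t, ht, h0⟩ := isPreconnected_Ioi.intermediate_value (a := R) (b := r) hR1 hr hcont
    ⟨hR2.le, hcon⟩
  exact hne t ht h0

end Pool.Agent.X215.Tip
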