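import Mathlib
import Pool.Agent.X215.Tip.Basic

/-!
# The Mandelbrot set lies in a horn of exponent `3/2` at the tip `-2`
-/

set_option autoImplicit false

open Filter Topology Metric Set N62a1eb23 Bornology ComplexConjugate

namespace Pool.Agent.X215.Tip

theorem norm_sub_conj (z : ℂ) : ‖z - conj z‖ = 2 * |z.im| := by
  have : z - conj z = (2 * z.im : ℝ) * Complex.I := by
    apply Complex.ext <;> simp
    ring
  rw [this, norm_mul, Complex.norm_I, mul_one, Complex.norm_real, Real.norm_eq_abs, abs_mul]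
  norm_num

/-- The imaginary parts along the orbit. -/
theorem im_bounds {w : ℂ} {n : ℕ} (h : 4 ^ (n + 1) * ‖w‖ ≤ 1) :
    4 ^ n * |w.im| ≤ |(ζ w n).im| ∧ |(ζ w n).im| ≤ 4.1 * 4 ^ n * |w.im| := by
  have h0 := expand (w := w) (w' := conj w) (R := ‖w‖) le_rfl (by rw [Complex.norm_conj]) n h
  rw [ζ_conj, norm_sub_conj, norm_sub_conj] at h0
  obtain ⟨h1, h2⟩ := h0
  obtain ⟨A, hA⟩ : ∃ A : ℝ, A = 4 ^ n := ⟨_, rfl⟩
  obtain ⟨Q, hQ⟩ : ∃ Q, Q = 4 ^ (n + 1) * ‖w‖ := ⟨_, rfl⟩
  have hA1 : 1 ≤ A := by rw [hA]; exact one_le_pow₀ (by norm_num)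
  rw [← hA, ← hQ] at h1 h2
  rw [← hQ] at h
  rw [← hA]
  have hv := abs_nonneg w.im
  have hQ0 : 0 ≤ Q := by rw [hQ]; positivity
  constructor
  · have h3 : A * (2 * |w.im|) ≤ (A * (2 - Q) + 1 / 2) * (2 * |w.im|) := by
      apply mul_le_mul_of_nonneg_right _ (by linarith)
      nlinarith
    linarith
  · have h3 : (A * (10 / 3 + 3 / 4 * Q) - 1 / 3) * (2 * |w.im|) ≤
        (4.1 * A) * (2 * |w.im|) := by
      apply mul_le_mul_of_nonneg_right _ (by linarith)
      nlinarith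
    linarith

theorem rpow_three_half {x : ℝ} (hx : 0 ≤ x) : x ^ (3 / 2 : ℝ) = x * √x := by
  rcases eq_or_lt_of_le hx with h | h
  · rw [← h, Real.zero_rpow (by norm_num), zero_mul]
  · rw [show (3 / 2 : ℝ) = 1 + 1 / 2 by norm_num, Real.rpow_add h, Real.rpow_one, Real.sqrt_eq_rpow]

/-- The real part of a parameter in the Mandelbrot set. -/
theorem re_lower {w : ℂ} (hc : -2 + w ∈ mandelbrotSet) : ‖w‖ / 3 ≤ w.re := by
  have h1 := orbit_ellipse hc 1
  simp only [Function.iterate_one, f, E] at h1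
  rw [show (0 : ℂ) ^ 2 + (-2 + w) - 2 = w - 4 by ring,
    show (0 : ℂ) ^ 2 + (-2 + w) + 2 = w by ring, show -2 + w + 2 = w by ring] at h1
  have h2 : 4 - w.re ≤ ‖w - 4‖ := by
    have := Complex.abs_re_le_norm (w - 4)
    simp only [Complex.sub_re, Complex.re_ofNat] at this
    have := neg_abs_le (w.re - 4)
    linarith
  linarith

theorem horn {c : ℂ} (hc : c ∈ mandelbrotSet) : |c.im| ≤ 20 * ‖c + 2‖ ^ (3 / 2 : ℝ) := by
  obtain ⟨w, rfl⟩ : ∃ w, c = -2 + w := ⟨c + 2, by ring⟩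
  have him : (-2 + w).im = w.im := by simp
  rw [him, show -2 + w + 2 = w by ring, rpow_three_half (norm_nonneg _)]
  obtain ⟨W, hW⟩ : ∃ W, W = ‖w‖ := ⟨_, rfl⟩
  have hW0 : 0 ≤ W := by rw [hW]; exact norm_nonneg _
  have hell : ∀ n : ℕ, |(ζ w n).im| ≤ √(4 / 3 * W + W ^ 2 / 9) := by
    intro n
    have h1 := orbit_ellipse hc (n + 2)
    rw [iter_eq, show -2 + w + 2 = w by ring, ← hW] at h1
    have h2 := im_sq_le (2 + ζ w n)
    have h3 : (2 + ζ w n).im = (ζ w n).im := by simp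
    rw [h3] at h2
    have h4 := four_le_E (2 + ζ w n)
    apply Real.abs_le_sqrt
    nlinarith
  rcases le_or_gt W (1 / 4) with h | h
  · rcases eq_or_lt_of_le hW0 with h0 | h0
    · have : w = 0 := by rw [← norm_eq_zero, ← hW, h0]
      rw [this]
      simp
    · obtain ⟨n, hn1, hn2⟩ := exists_nat_pow_near (x := 1 / (4 * W)) (y := 4)
        (by rw [le_div_iff₀ (by positivity)]; linarith) (by norm_num)
      rw [le_div_iff₀ (by positivity)] at hn1
      rw [div_lt_iff₀ (by positivity)] at hn2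
      have hq : 4 ^ (n + 1) * ‖w‖ ≤ 1 := by rw [← hW, pow_succ]; linarith
      have h1 := (im_bounds hq).1.trans (hell n)
      have h2 : √(4 / 3 * W + W ^ 2 / 9) ≤ 1.2 * √W := by
        rw [Real.sqrt_le_left (by positivity), mul_pow, Real.sq_sqrt hW0]
        nlinarith
      have h3 : 1 < 16 * 4 ^ n * W := by rw [pow_succ] at hn2; linarith
      have h4 : |w.im| ≤ 16 * W * (4 ^ n * |w.im|) := by
        have := abs_nonneg w.im
        nlinarith
      calc |w.im| ≤ 16 * W * (4 ^ n * |w.im|) := h4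
        _ ≤ 16 * W * (1.2 * √W) := mul_le_mul_of_nonneg_left (h1.trans h2) (by positivity)
        _ ≤ 20 * (W * √W) := by nlinarith [mul_nonneg hW0 (Real.sqrt_nonneg W)]
        _ = 20 * (‖w‖ * √‖w‖) := by rw [hW]
  · have h1 := orbit_ellipse hc 1
    simp only [Function.iterate_one, f] at h1
    rw [show (0 : ℂ) ^ 2 + (-2 + w) = -2 + w by ring, show -2 + w + 2 = w by ring] at h1
    have h2 := im_sq_le (-2 + w)
    rw [him] at h2
    have h4 := four_le_E (-2 + w)
    rw [← hW] at h1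
    have h5 : w.im ^ 2 ≤ 4 / 3 * W + W ^ 2 / 9 := by nlinarith
    have h7 : W ≤ 6 := by
      have h9 := two_norm_le_E (-2 + w)
      have h10 : ‖w‖ ≤ ‖-2 + w‖ + 2 := by
        have := norm_add_le (-2 + w) 2
        rw [show -2 + w + 2 = w by ring, Complex.norm_ofNat] at this
        exact this
      rw [← hW] at h10
      linarith
    rw [← hW]
    have h12 : w.im ^ 2 ≤ (20 * (W * √W)) ^ 2 := by
      rw [mul_pow, mul_pow, Real.sq_sqrt hW0]
      have h13 : 1 / 16 ≤ W ^ 2 := by nlinarith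
      nlinarith
    exact abs_le_of_sq_le_sq h12 (by positivity)

end Pool.Agent.X215.Tip
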