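import Mathlib
import Pool.Agent.X215.Tip.Horn

/-!
# The exponent `3/2` of the horn is sharp
-/

set_option autoImplicit false

open Filter Topology Metric Set N62a1eb23 Bornology ComplexConjugate

namespace Pool.Agent.X215.Tip

/-- An entire function which stays away from its value at the centre on a circle covers a disc. -/
theorem cover {g : ℂ → ℂ} (hg : Differentiable ℂ g) {z₀ : ℂ} {r e : ℝ} (hr : 0 < r) (he : 0 < e)
    (h : ∀ z ∈ sphere z₀ r, e ≤ ‖g z - g z₀‖) : ball (g z₀) (e / 2) ⊆ g '' closedBall z₀ r := by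
  apply DiffContOnCl.ball_subset_image_closedBall hg.diffContOnCl hr h
  by_contra hcon
  rw [not_frequently] at hcon
  have h1 : g =ᶠ[𝓝 z₀] fun _ => g z₀ := by
    filter_upwards [hcon] with z hz
    simpa using hz
  have h2 := AnalyticOnNhd.eq_of_eventuallyEq (fun z _ => hg.analyticAt z)
    (fun z _ => analyticAt_const) h1
  have h3 : z₀ + (r : ℂ) ∈ sphere z₀ r := by
    rw [mem_sphere_iff_norm, add_sub_cancel_left, Complex.norm_real, Real.norm_eq_abs,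
      abs_of_pos hr]
  have h4 := h _ h3
  rw [h2, sub_self, norm_zero] at h4
  linarith

/-- One step of the dynamics near a real point. -/
theorem step_near {z w : ℂ} {a D lo hi : ℝ} (ha : 0 ≤ a) (h1 : ‖z - a‖ ≤ D)
    (hw : ‖w‖ ≤ lo) (hhi : D * (2 * a + D) + lo ≤ hi) :
    ‖f (-2 + w) z - ((a ^ 2 - 2 : ℝ) : ℂ)‖ ≤ hi := by
  have h2 : f (-2 + w) z - ((a ^ 2 - 2 : ℝ) : ℂ) = (z - a) * ((z - a) + 2 * a) + w := by
    simp only [f]
    push_cast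
    ring
  rw [h2]
  refine (norm_add_le _ _).trans (le_trans (add_le_add ?_ hw) hhi)
  rw [norm_mul]
  have h3 : ‖(z - a) + 2 * a‖ ≤ 2 * a + D := by
    refine (norm_add_le _ _).trans ?_
    rw [norm_mul, Complex.norm_ofNat, Complex.norm_real, Real.norm_eq_abs, abs_of_nonneg ha]
    linarith
  have h4 := norm_nonneg (z - a)
  exact mul_le_mul h1 h3 (norm_nonneg _) (h4.trans h1)

theorem step_far {z w : ℂ} {a d D lo out : ℝ} (ha : 0 ≤ a) (hd : d ≤ ‖z - a‖) (hd0 : 0 ≤ d)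
    (h1 : ‖z - a‖ ≤ D) (hDa : D ≤ 2 * a)
    (hw : ‖w‖ ≤ lo) (hout : out ≤ d * (2 * a - D) - lo) :
    out ≤ ‖f (-2 + w) z - ((a ^ 2 - 2 : ℝ) : ℂ)‖ := by
  have h2 : f (-2 + w) z - ((a ^ 2 - 2 : ℝ) : ℂ) = (z - a) * ((z - a) + 2 * a) + w := by
    simp only [f]
    push_cast
    ring
  rw [h2]
  have h3 : 2 * a - D ≤ ‖(z - a) + 2 * a‖ := by
    have := norm_sub_norm_le (2 * (a : ℂ)) (-(z - a))
    rw [norm_mul, Complex.norm_ofNat, Complex.norm_real, Real.norm_eq_abs, abs_of_nonneg ha,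
      norm_neg, sub_neg_eq_add, add_comm (2 * (a : ℂ))] at this
    linarith
  have h4 := norm_sub_norm_le ((z - a) * ((z - a) + 2 * a)) (-w)
  rw [norm_mul, norm_neg, sub_neg_eq_add] at h4
  have h5 : d * (2 * a - D) ≤ ‖z - a‖ * ‖(z - a) + 2 * a‖ :=
    mul_le_mul hd h3 (by linarith) (hd0.trans hd)
  linarith

/-- The three preimages of the critical point near `2`. -/
theorem exists_a : ∃ a b : ℝ, a ^ 2 - 2 = b ∧ (b ^ 2 - 2) ^ 2 - 2 = 0 ∧ 1.96 ≤ a ∧ a ≤ 1.97 ∧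
    1.84 ≤ b ∧ b ≤ 1.85 ∧ 1.41 ≤ b ^ 2 - 2 ∧ b ^ 2 - 2 ≤ 1.42 := by
  obtain ⟨x, hx⟩ : ∃ x, x = √2 := ⟨_, rfl⟩
  have hx2 : x ^ 2 = 2 := by rw [hx, Real.sq_sqrt (by norm_num)]
  have hx0 : 0 ≤ x := by rw [hx]; positivity
  have hx1 : 1.41 ≤ x := by nlinarith
  have hx1' : x ≤ 1.42 := by nlinarith
  obtain ⟨b, hb⟩ : ∃ b, b = √(2 + x) := ⟨_, rfl⟩
  have hb2 : b ^ 2 = 2 + x := by rw [hb, Real.sq_sqrt (by linarith)]
  have hb0 : 0 ≤ b := by rw [hb]; positivity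
  have hb1 : 1.84 ≤ b := by nlinarith
  have hb1' : b ≤ 1.85 := by nlinarith
  obtain ⟨a, ha⟩ : ∃ a, a = √(2 + b) := ⟨_, rfl⟩
  have ha2 : a ^ 2 = 2 + b := by rw [ha, Real.sq_sqrt (by linarith)]
  have ha0 : 0 ≤ a := by rw [ha]; positivity
  have ha1 : 1.95 ≤ a := by nlinarith
  have ha1' : a ≤ 1.97 := by nlinarith
  refine ⟨a, b, by rw [ha2]; ring, by rw [hb2]; nlinarith, ?_, ha1', hb1, hb1', by rw [hb2]; linarith,
    by rw [hb2]; linarith⟩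
  nlinarith

/-- Three steps of the dynamics. -/
noncomputable def F3 (c z : ℂ) : ℂ := f c (f c (f c z))

theorem F3_eq (w : ℂ) (n : ℕ) : (f (-2 + w))^[n + 5] 0 = F3 (-2 + w) (2 + ζ w n) := by
  rw [← iter_eq, F3, show n + 5 = (n + 2) + 1 + 1 + 1 by ring, Function.iterate_succ_apply',
    Function.iterate_succ_apply', Function.iterate_succ_apply']

theorem im_step (c z : ℂ) : |(f c z).im| ≤ 2 * ‖z‖ * |z.im| + |c.im| := by
  have h1 : (f c z).im = 2 * z.re * z.im + c.im := by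
    simp only [f, Complex.add_im, pow_two, Complex.mul_im]
    ring
  rw [h1]
  refine (abs_add_le _ _).trans ?_
  rw [abs_mul, abs_mul, abs_two]
  have := Complex.abs_re_le_norm z
  have := abs_nonneg z.im
  gcongr

set_option maxHeartbeats 4000000 in
/-- The solutions of `f_c^{n+6}(0) = -β(c)`. -/
theorem exists_param {n : ℕ} (hn : 7 ≤ n) : ∃ ε : ℂ, ‖ε‖ ≤ 2 * (1 / (32 * 4 ^ n)) ∧
    F3 (-2 + (3 * ε - ε ^ 2)) (2 + ζ (3 * ε - ε ^ 2) n) ^ 2 = -(2 * ε - ε ^ 2) := by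
  obtain ⟨s, hs⟩ : ∃ s : ℝ, s = (1 / 2) ^ n := ⟨_, rfl⟩
  have hs0 : 0 < s := by rw [hs]; positivity
  have hs1 : s ≤ 1 / 100 := by
    have h1 : (1 / 2 : ℝ) ^ n ≤ (1 / 2) ^ 7 := pow_le_pow_of_le_one (by norm_num) (by norm_num) hn
    rw [hs]
    norm_num at h1 ⊢
    linarith
  have hA : (4 : ℝ) ^ n * s ^ 2 = 1 := by
    rw [hs, ← pow_mul, mul_comm n 2, pow_mul, ← mul_pow]
    norm_num
  have hApos : (0 : ℝ) < 4 ^ n := by positivity
  obtain ⟨A, hAdef⟩ : ∃ A : ℝ, A = 4 ^ n := ⟨_, rfl⟩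
  rw [← hAdef] at hA hApos
  obtain ⟨ρ, hρ⟩ : ∃ ρ : ℝ, ρ = s ^ 2 / 32 := ⟨_, rfl⟩
  have hρ' : 1 / (32 * (4 : ℝ) ^ n) = ρ := by
    rw [← hAdef, hρ]
    rw [div_eq_div_iff (by positivity) (by norm_num)]
    linarith
  have hρ0 : 0 < ρ := by rw [hρ]; positivity
  have hρ1 : ρ ≤ 1 / 1000 := by rw [hρ]; nlinarith
  have hAρ : A * ρ = 1 / 32 := by rw [hρ]; linarith
  rw [hρ']
  obtain ⟨a, b, hab, hb, ha1, ha2, hb1, hb2, hx1, hx2⟩ := exists_a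
  have hdζ : Differentiable ℂ (fun ε : ℂ => ζ (3 * ε - ε ^ 2) n) :=
    (ζ_diff n).comp (by fun_prop)
  -- Step 1
  have hstep1 : ∃ ε₁ : ℂ, ‖ε₁‖ ≤ ρ ∧ ζ (3 * ε₁ - ε₁ ^ 2) n = ((a - 2 : ℝ) : ℂ) := by
    have h1 : ball (ζ (3 * 0 - 0 ^ 2) n) (0.14 / 2) ⊆
        (fun ε : ℂ => ζ (3 * ε - ε ^ 2) n) '' closedBall 0 ρ := by
      apply cover hdζ hρ0 (by norm_num)
      intro ε hε
      rw [mem_sphere_iff_norm, sub_zero] at hε
      have hw1 : ‖3 * ε - ε ^ 2‖ ≤ 3.1 * ρ := by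
        refine (norm_sub_le _ _).trans ?_
        rw [norm_mul, norm_pow, Complex.norm_ofNat, hε]
        nlinarith
      have hw2 : 2.9 * ρ ≤ ‖3 * ε - ε ^ 2‖ := by
        have := norm_sub_norm_le (3 * ε) (ε ^ 2)
        rw [norm_mul, norm_pow, Complex.norm_ofNat, hε] at this
        nlinarith
      have h2 := (expand (w := 3 * ε - ε ^ 2) (w' := 3 * 0 - 0 ^ 2) (R := 3.1 * ρ) hw1
        (by simp; positivity) n (by rw [pow_succ, ← hAdef]; linarith)).1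
      refine le_trans ?_ h2
      have h3 : (4 : ℝ) ^ (n + 1) * (3.1 * ρ) = 0.3875 := by rw [pow_succ, ← hAdef]; linarith
      rw [h3, ← hAdef]
      simp only [mul_zero, ne_eq, OfNat.ofNat_ne_zero, not_false_eq_true, zero_pow, sub_zero]
      nlinarith
    have h2 : ((a - 2 : ℝ) : ℂ) ∈ ball (ζ (3 * 0 - 0 ^ 2) n) (0.14 / 2) := by
      have : ζ (3 * 0 - 0 ^ 2) n = 0 := by
        rw [show (3 * 0 - 0 ^ 2 : ℂ) = 0 by ring, ζ_zero]
      rw [this, mem_ball_zero_iff, Complex.norm_real, Real.norm_eq_abs, abs_lt]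
      constructor <;> linarith
    obtain ⟨ε₁, h3, h4⟩ := h1 h2
    exact ⟨ε₁, by rwa [mem_closedBall_zero_iff] at h3, h4⟩
  obtain ⟨ε₁, hε₁, htarget⟩ := hstep1
  have hw₁ : ‖3 * ε₁ - ε₁ ^ 2‖ ≤ 3.1 * ρ := by
    refine (norm_sub_le _ _).trans ?_
    rw [norm_mul, norm_pow, Complex.norm_ofNat]
    nlinarith [norm_nonneg ε₁]
  -- the centre
  have hcen : ‖F3 (-2 + (3 * ε₁ - ε₁ ^ 2)) (2 + ζ (3 * ε₁ - ε₁ ^ 2) n)‖ ≤ 1.5 * s ^ 2 := by
    have hw : ‖3 * ε₁ - ε₁ ^ 2‖ ≤ 0.1 * s ^ 2 := by rw [hρ] at hw₁; nlinarith [sq_nonneg s]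
    have e0 : ‖(2 + ζ (3 * ε₁ - ε₁ ^ 2) n) - (a : ℂ)‖ ≤ 0 := by
      rw [htarget]
      push_cast
      rw [show 2 + ((a : ℂ) - 2) - a = 0 by ring, norm_zero]
    have e1 := step_near (a := a) (by linarith) e0 hw (hi := 0.1 * s ^ 2) (by linarith)
    rw [hab] at e1
    have e2 := step_near (a := b) (by linarith) e1 hw (hi := 0.48 * s ^ 2)
      (by nlinarith [sq_nonneg s, mul_nonneg (sq_nonneg s) (sq_nonneg s), mul_pos hs0 hs0])
    have e3 := step_near (a := b ^ 2 - 2) (by linarith) e2 hw (hi := 1.5 * s ^ 2)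
      (by nlinarith [sq_nonneg s, mul_nonneg (sq_nonneg s) (sq_nonneg s), mul_pos hs0 hs0])
    rw [hb] at e3
    simpa [F3] using e3
  -- the circle
  have hout : ∀ ε ∈ sphere ε₁ (ρ * s),
      3.8 * s ≤ ‖F3 (-2 + (3 * ε - ε ^ 2)) (2 + ζ (3 * ε - ε ^ 2) n)‖ := by
    intro ε hε
    rw [mem_sphere_iff_norm] at hε
    have hε2 : ‖ε‖ ≤ 2 * ρ := by
      have := norm_add_le ε₁ (ε - ε₁)
      rw [add_sub_cancel, hε] at this
      nlinarith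
    have hw' : ‖3 * ε - ε ^ 2‖ ≤ 6.2 * ρ := by
      refine (norm_sub_le _ _).trans ?_
      rw [norm_mul, norm_pow, Complex.norm_ofNat]
      nlinarith [norm_nonneg ε]
    have hw : ‖3 * ε - ε ^ 2‖ ≤ 0.2 * s ^ 2 := by rw [hρ] at hw'; nlinarith [sq_nonneg s]
    have hdw : ‖(3 * ε - ε ^ 2) - (3 * ε₁ - ε₁ ^ 2)‖ = ρ * s * ‖3 - (ε + ε₁)‖ := by
      rw [← hε, ← norm_mul]
      congr 1
      ring
    have hsum : ‖ε + ε₁‖ ≤ 3 * ρ := (norm_add_le _ _).trans (by linarith)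
    have h31 : ‖3 - (ε + ε₁)‖ ≤ 3.1 := by
      refine (norm_sub_le _ _).trans ?_
      rw [Complex.norm_ofNat]
      linarith
    have h32 : 2.9 ≤ ‖3 - (ε + ε₁)‖ := by
      have := norm_sub_norm_le (3 : ℂ) (ε + ε₁)
      rw [Complex.norm_ofNat] at this
      linarith
    obtain ⟨g1, g2⟩ := expand (w := 3 * ε - ε ^ 2) (w' := 3 * ε₁ - ε₁ ^ 2) (R := 6.2 * ρ) hw'
        (hw₁.trans (by linarith)) n (by rw [pow_succ, ← hAdef]; linarith)
    have hpow : (4 : ℝ) ^ (n + 1) * (6.2 * ρ) = 0.775 := by rw [pow_succ, ← hAdef]; linarith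
    rw [hpow, ← hAdef, hdw, htarget] at g1 g2
    have hz : ζ (3 * ε - ε ^ 2) n - ((a - 2 : ℝ) : ℂ) = (2 + ζ (3 * ε - ε ^ 2) n) - (a : ℂ) := by
      push_cast
      ring
    rw [hz] at g1 g2
    have hAρs : A * (ρ * s) = s / 32 := by rw [← mul_assoc, hAρ]; ring
    have hρs : 0 < ρ * s := by positivity
    have g1' : 0.1 * s ≤ ‖(2 + ζ (3 * ε - ε ^ 2) n) - (a : ℂ)‖ := by
      refine le_trans ?_ g1
      have h5 : (A * (2 - 0.775) + 1 / 2) * (ρ * s * 2.9) ≤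
          (A * (2 - 0.775) + 1 / 2) * (ρ * s * ‖3 - (ε + ε₁)‖) := by
        have : 0 < A * (2 - 0.775) + 1 / 2 := by positivity
        gcongr
      refine le_trans ?_ h5
      have h6 : (A * (2 - 0.775) + 1 / 2) * (ρ * s * 2.9) =
          3.5525 * (A * (ρ * s)) + 1.45 * (ρ * s) := by ring
      rw [h6, hAρs]
      linarith
    have g2' : ‖(2 + ζ (3 * ε - ε ^ 2) n) - (a : ℂ)‖ ≤ 0.4 * s := by
      refine g2.trans ?_
      have h5 : (A * (10 / 3 + 3 / 4 * 0.775) - 1 / 3) * (ρ * s * ‖3 - (ε + ε₁)‖) ≤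
          (A * (10 / 3 + 3 / 4 * 0.775)) * (ρ * s * 3.1) := by
        apply mul_le_mul (by linarith) _ (by positivity) (by positivity)
        gcongr
      refine h5.trans ?_
      have h6 : (A * (10 / 3 + 3 / 4 * 0.775)) * (ρ * s * 3.1) =
          (10 / 3 + 3 / 4 * 0.775) * 3.1 * (A * (ρ * s)) := by ring
      rw [h6, hAρs]
      linarith
    have e1 := step_near (a := a) (by linarith) g2' hw (hi := 1.6 * s) (by nlinarith)
    have e1' := step_far (a := a) (by linarith) g1' (by positivity) g2' (by linarith) hw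
      (out := 0.38 * s) (by nlinarith)
    rw [hab] at e1 e1'
    have e2 := step_near (a := b) (by linarith) e1 hw (hi := 6 * s) (by nlinarith)
    have e2' := step_far (a := b) (by linarith) e1' (by positivity) e1 (by linarith) hw
      (out := 1.385 * s) (by nlinarith)
    have e3' := step_far (a := b ^ 2 - 2) (by linarith) e2' (by positivity) e2 (by linarith) hw
      (out := 3.8 * s) (by nlinarith)
    rw [hb] at e3'
    simpa [F3] using e3'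
  -- the zero
  have hdG : Differentiable ℂ (fun ε : ℂ =>
      F3 (-2 + (3 * ε - ε ^ 2)) (2 + ζ (3 * ε - ε ^ 2) n) ^ 2 + (2 * ε - ε ^ 2)) := by
    simp only [F3, f]
    fun_prop
  have hq : ∀ ε : ℂ, ‖ε‖ ≤ 2 * ρ → ‖2 * ε - ε ^ 2‖ ≤ 0.2 * s ^ 2 := by
    intro ε hε
    have h1 : ‖2 * ε - ε ^ 2‖ ≤ 4.1 * ρ := by
      refine (norm_sub_le _ _).trans ?_
      rw [norm_mul, norm_pow, Complex.norm_ofNat]
      nlinarith [norm_nonneg ε]
    rw [hρ] at h1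
    nlinarith [sq_nonneg s]
  have hG1 : ‖F3 (-2 + (3 * ε₁ - ε₁ ^ 2)) (2 + ζ (3 * ε₁ - ε₁ ^ 2) n) ^ 2 +
      (2 * ε₁ - ε₁ ^ 2)‖ ≤ 0.3 * s ^ 2 := by
    refine (norm_add_le _ _).trans ?_
    rw [norm_pow]
    have h1 := hq ε₁ (hε₁.trans (by linarith))
    have h2 : ‖F3 (-2 + (3 * ε₁ - ε₁ ^ 2)) (2 + ζ (3 * ε₁ - ε₁ ^ 2) n)‖ ^ 2 ≤ (1.5 * s ^ 2) ^ 2 :=
      pow_le_pow_left₀ (norm_nonneg _) hcen 2
    have h3 : (1.5 * s ^ 2) ^ 2 ≤ 0.1 * s ^ 2 := by nlinarith [sq_nonneg s, mul_pos hs0 hs0]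
    linarith
  have hcov := cover hdG (z₀ := ε₁) (r := ρ * s) (e := 13 * s ^ 2) (by positivity) (by positivity) (by
    intro ε hε
    have h1 := hout ε hε
    have hε2 : ‖ε‖ ≤ 2 * ρ := by
      rw [mem_sphere_iff_norm] at hε
      have := norm_add_le ε₁ (ε - ε₁)
      rw [add_sub_cancel, hε] at this
      nlinarith
    have h2 := hq ε hε2
    have h3 : (3.8 * s) ^ 2 ≤ ‖F3 (-2 + (3 * ε - ε ^ 2)) (2 + ζ (3 * ε - ε ^ 2) n) ^ 2‖ := by
      rw [norm_pow]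
      exact pow_le_pow_left₀ (by positivity) h1 2
    have h4 := norm_sub_norm_le
      (F3 (-2 + (3 * ε - ε ^ 2)) (2 + ζ (3 * ε - ε ^ 2) n) ^ 2) (-(2 * ε - ε ^ 2))
    rw [norm_neg, sub_neg_eq_add] at h4
    have h5 := norm_sub_norm_le
      (F3 (-2 + (3 * ε - ε ^ 2)) (2 + ζ (3 * ε - ε ^ 2) n) ^ 2 + (2 * ε - ε ^ 2))
      (F3 (-2 + (3 * ε₁ - ε₁ ^ 2)) (2 + ζ (3 * ε₁ - ε₁ ^ 2) n) ^ 2 + (2 * ε₁ - ε₁ ^ 2))
    nlinarith [sq_nonneg s])
  have hmem : (0 : ℂ) ∈ ball (F3 (-2 + (3 * ε₁ - ε₁ ^ 2)) (2 + ζ (3 * ε₁ - ε₁ ^ 2) n) ^ 2 +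
      (2 * ε₁ - ε₁ ^ 2)) (13 * s ^ 2 / 2) := by
    rw [mem_ball_iff_norm, zero_sub, norm_neg]
    nlinarith [mul_pos hs0 hs0]
  obtain ⟨ε, hε1, hε2⟩ := hcov hmem
  refine ⟨ε, ?_, ?_⟩
  · rw [mem_closedBall_iff_norm] at hε1
    have := norm_add_le ε₁ (ε - ε₁)
    rw [add_sub_cancel] at this
    nlinarith
  · exact eq_neg_of_add_eq_zero_left hε2

end Pool.Agent.X215.Tip
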