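import Mathlib
import Pool.Agent.X215.Tip.Sharp

/-!
# Points of the Mandelbrot set near the tip with large imaginary part
-/

set_option autoImplicit false

open Filter Topology Metric Set N62a1eb23 Bornology ComplexConjugate

namespace Pool.Agent.X215.Tip

theorem mem_of_param {ε : ℂ} {n : ℕ}
    (h : F3 (-2 + (3 * ε - ε ^ 2)) (2 + ζ (3 * ε - ε ^ 2) n) ^ 2 = -(2 * ε - ε ^ 2)) :
    -2 + (3 * ε - ε ^ 2) ∈ mandelbrotSet := by
  rw [mem_mandelbrot]
  intro hT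
  have h1 : (f (-2 + (3 * ε - ε ^ 2)))^[n + 6] 0 = -(2 - ε) := by
    rw [show n + 6 = (n + 5) + 1 by ring, Function.iterate_succ_apply', F3_eq]
    simp only [f] at h ⊢
    rw [h]
    ring
  have h2 : ∀ k : ℕ, (f (-2 + (3 * ε - ε ^ 2)))^[k + 1 + (n + 6)] 0 = 2 - ε := by
    intro k
    rw [Function.iterate_add_apply, h1]
    induction k with
    | zero =>
      simp only [zero_add, Function.iterate_one, f]
      ring
    | succ k ih =>
      rw [Function.iterate_succ_apply', ih]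
      simp only [f]
      ring
  have h3 : Tendsto (fun k : ℕ => (f (-2 + (3 * ε - ε ^ 2)))^[k + 1 + (n + 6)] 0) atTop
      (cobounded ℂ) := by
    have h4 : Tendsto (fun k : ℕ => k + (1 + (n + 6))) atTop atTop := tendsto_add_atTop_nat _
    refine (hT.comp h4).congr fun k => ?_
    simp only [Function.comp_apply, add_assoc]
  simp only [h2] at h3
  have h5 := tendsto_norm_cobounded_atTop.comp h3
  have h6 := h5.eventually (eventually_gt_atTop (‖(2 : ℂ) - ε‖))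
  obtain ⟨k, hk⟩ := h6.exists
  exact lt_irrefl _ hk

theorem sharp {δ : ℝ} (hδ : 0 < δ) : ∃ c ∈ mandelbrotSet, c ≠ -2 ∧ ‖c + 2‖ < δ ∧
    ‖c + 2‖ ^ (3 / 2 : ℝ) / 200 ≤ |c.im| := by
  obtain ⟨m, hm⟩ := exists_pow_lt_of_lt_one hδ (show (1 / 4 : ℝ) < 1 by norm_num)
  obtain ⟨n, hnm, hn⟩ : ∃ n, m ≤ n ∧ 7 ≤ n := ⟨max m 7, le_max_left _ _, le_max_right _ _⟩
  obtain ⟨ε, hε, hG⟩ := exists_param hn
  have hmem := mem_of_param hG
  obtain ⟨w, hw⟩ : ∃ w, w = 3 * ε - ε ^ 2 := ⟨_, rfl⟩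
  obtain ⟨A, hA⟩ : ∃ A : ℝ, A = 4 ^ n := ⟨_, rfl⟩
  have hA4 : (16384 : ℝ) ≤ A := by
    rw [hA]
    have : (4 : ℝ) ^ 7 ≤ 4 ^ n := pow_le_pow_right₀ (by norm_num) hn
    norm_num at this
    exact this
  have hA0 : 0 < A := by linarith
  rw [← hA] at hε
  have hAe : A * ‖ε‖ ≤ 1 / 16 := by
    have : A * (2 * (1 / (32 * A))) = 1 / 16 := by field_simp; norm_num
    rw [← this]
    gcongr
  have he0 := norm_nonneg ε
  have he1 : ‖ε‖ ≤ 1 / 1000 := by nlinarith
  have hw1 : ‖w‖ ≤ 3.1 * ‖ε‖ := by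
    rw [hw]
    refine (norm_sub_le _ _).trans ?_
    rw [norm_mul, norm_pow, Complex.norm_ofNat]
    nlinarith
  have hw2 : 2.9 * ‖ε‖ ≤ ‖w‖ := by
    have := norm_sub_norm_le (3 * ε) (ε ^ 2)
    rw [norm_mul, norm_pow, Complex.norm_ofNat, ← hw] at this
    nlinarith
  rw [← hw] at hG hmem
  have hAw : A * ‖w‖ ≤ 0.2 := by nlinarith
  have hre := re_lower hmem
  obtain ⟨h, hh⟩ : ∃ h, h = F3 (-2 + w) (2 + ζ w n) := ⟨_, rfl⟩
  rw [← hh] at hG
  have hε0 : ε ≠ 0 := by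
    rintro rfl
    have hw0 : w = 0 := by rw [hw]; ring
    rw [hw0] at hh
    have h2 : h = 2 := by
      rw [hh, ζ_zero]
      simp only [F3, f]
      norm_num
    rw [h2] at hG
    norm_num at hG
  have hepos : 0 < ‖ε‖ := norm_pos_iff.2 hε0
  have hwpos : 0 < ‖w‖ := by linarith
  -- the imaginary part of `h`
  have hreh : (h ^ 2).re ≤ 0 := by
    rw [hG]
    have h1 : -(2 * ε - ε ^ 2) = -((2 / 3 : ℝ) : ℂ) * w + ((1 / 3 : ℝ) : ℂ) * ε ^ 2 := by
      rw [hw]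
      push_cast
      ring
    rw [h1, Complex.add_re, ← Complex.ofReal_neg, Complex.re_ofReal_mul, Complex.re_ofReal_mul]
    have h2 : (ε ^ 2).re ≤ ‖ε‖ ^ 2 := by
      rw [← norm_pow]
      exact Complex.re_le_norm _
    nlinarith
  have hh2 : 1.9 * ‖ε‖ ≤ ‖h‖ ^ 2 := by
    rw [← norm_pow, hG, norm_neg]
    have := norm_sub_norm_le (2 * ε) (ε ^ 2)
    rw [norm_mul, norm_pow, Complex.norm_ofNat] at this
    nlinarith
  have him2 : 0.3 * ‖w‖ ≤ h.im ^ 2 := by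
    have h1 : ‖h‖ ^ 2 = h.re ^ 2 + h.im ^ 2 := by
      rw [← Complex.normSq_eq_norm_sq, Complex.normSq_apply]
      ring
    have h2 : (h ^ 2).re = h.re ^ 2 - h.im ^ 2 := by
      rw [pow_two, Complex.mul_re]
      ring
    nlinarith
  -- the upper bound for the imaginary part
  obtain ⟨v, hv⟩ : ∃ v, v = |w.im| := ⟨_, rfl⟩
  have hv0 : 0 ≤ v := by rw [hv]; exact abs_nonneg _
  have hnorm : ∀ k : ℕ, ‖(f (-2 + w))^[k] 0‖ ≤ 2.01 := by
    intro k
    have h1 := orbit_ellipse hmem k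
    have h2 := two_norm_le_E ((f (-2 + w))^[k] 0)
    rw [show -2 + w + 2 = w by ring] at h1
    linarith
  have him : (-2 + w).im = w.im := by simp
  have hstep : ∀ k : ℕ, |((f (-2 + w))^[k + 1] 0).im| ≤ 4.02 * |((f (-2 + w))^[k] 0).im| + v := by
    intro k
    rw [Function.iterate_succ_apply']
    have h1 := im_step (-2 + w) ((f (-2 + w))^[k] 0)
    rw [him, ← hv] at h1
    have h2 := hnorm k
    have h3 := abs_nonneg ((f (-2 + w))^[k] 0).im
    nlinarith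
  have hb0 : |((f (-2 + w))^[n + 2] 0).im| ≤ 4.1 * A * v := by
    rw [iter_eq]
    have h1 := (im_bounds (w := w) (n := n) (by rw [pow_succ, ← hA]; linarith)).2
    rw [← hA, ← hv] at h1
    simpa using h1
  have hb1 := hstep (n + 2)
  have hb2 := hstep (n + 3)
  have hb3 := hstep (n + 4)
  rw [show n + 4 + 1 = n + 5 by ring, F3_eq, ← hh] at hb3
  have hfin : |h.im| ≤ 270 * (A * v) := by
    have h1 : v ≤ A * v / 10000 := by nlinarith
    have h2 : |((f (-2 + w))^[n + 2 + 1] 0).im| = |((f (-2 + w))^[n + 3] 0).im| := rfl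
    have h3 : |((f (-2 + w))^[n + 3 + 1] 0).im| = |((f (-2 + w))^[n + 4] 0).im| := rfl
    rw [h2] at hb1
    rw [h3] at hb2
    have h4 : 0 ≤ A * v := by positivity
    linarith
  refine ⟨-2 + w, hmem, ?_, ?_, ?_⟩
  · intro h0
    have : w = 0 := by
      have h1 : w = (-2 + w) + 2 := by ring
      rw [h1, h0]
      ring
    rw [this, norm_zero] at hwpos
    exact lt_irrefl _ hwpos
  · rw [show -2 + w + 2 = w by ring]
    have h1 : (1 / 4 : ℝ) ^ n ≤ (1 / 4) ^ m :=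
      pow_le_pow_of_le_one (by norm_num) (by norm_num) hnm
    have h2 : (1 / 4 : ℝ) ^ n = 1 / A := by rw [hA, one_div, one_div, inv_pow]
    have h3 : ‖w‖ ≤ 1 / A := by
      rw [le_div_iff₀ hA0]
      linarith
    linarith
  · rw [him, show -2 + w + 2 = w by ring, rpow_three_half (norm_nonneg _), ← hv]
    obtain ⟨W, hW⟩ : ∃ W, W = ‖w‖ := ⟨_, rfl⟩
    rw [← hW] at him2 hAw hwpos ⊢
    have h1 : 0.54 * √W ≤ |h.im| := by
      have h2 : (0.54 * √W) ^ 2 ≤ h.im ^ 2 := by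
        rw [mul_pow, Real.sq_sqrt hwpos.le]
        linarith
      rw [← sq_abs h.im] at h2
      exact (le_abs_self _).trans (abs_le_of_sq_le_sq h2 (abs_nonneg _))
    have h3 : 0.54 * √W ≤ 270 * (A * v) := h1.trans hfin
    have h4 : 0.54 * (W * √W) ≤ 270 * (A * W) * v := by nlinarith [hwpos]
    nlinarith [mul_nonneg (show 0 ≤ 0.2 - A * W by linarith) hv0]

end Pool.Agent.X215.Tip
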